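import Pool.Agent.J6H58.MC.Basic
import Pool.Agent.J6H77.BC.Rs
import Pool.Agent.J6H48.BC.B1
import Pool.Agent.J6H81.BC.Ext

/-!
# The last axiom is pseudo-true (module 2 of the theory `AA P G`)
-/

set_option autoImplicit false

namespace Pool.Agent.J6H83.MC

open Pool.Agent.TH672 (Fm Str upd varStr num digits LogK ReplK Sw Pv upd_self upd_same upd_ne)
open Pool.Agent.TH636.BC (Fml Step IsProof str strs Proves code robinson Arith PrRel lt col
  St Ok Agr Eqs AddS MulS SuccS Vlt)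
open Pool.Agent.TH197.J1545 (D DM digits_zero digits_odd digits_even digits_num code_inj
  sat_proves sat_robinson)
open Pool.Agent.TH838.J1549 (Q exists_Q)
open Pool.Agent.J6H49.BC (WB XX OpP Tru Wn Lw Realz TransferT ExRealzT)
open Pool.Agent.J6H77.BC (nm_D lw_arith)
open Pool.Agent.J6H58.MC

/-! ### numerals in the pseudo-model -/

/-- the value after the digits `σ` -/
theorem num_cons_aux (a : ℕ) (b : Bool) (σ : List Bool) :
    num (digits a ++ b :: σ) = num (digits (2 * a + if b then 2 else 1) ++ σ) := by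
  cases b
  · simp only [Bool.false_eq_true, if_false]
    rw [digits_odd, List.append_assoc]; rfl
  · simp only [if_true]
    rw [digits_even, List.append_assoc]; rfl

theorem tq_dig {m x : ℕ} (h0 : 0 < m) (h1 : 1 < m) (hxm : x < m) (hx : 2 ≤ x) (b : Bool)
    (a : ℕ) {φ : Fml}
    (h : ∀ t, Ok m t → t.v x = .inl (2 * a + if b then 2 else 1) → Tq m φ t) :
    ∀ t, Ok m t → t.v x = .inl a → Tq m (dig x b φ) t := by
  intro t ht hta
  cases b
  · simp only [dig, Bool.false_eq_true, if_false]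
    intro u hu htu hadd w hw huw hsucc
    have hux : u.v x = .inl a := by rw [← htu.1 x hxm (by omega)]; exact hta
    have hA : AddS u x x 0 := hadd
    unfold AddS at hA
    rw [hux] at hA
    have hw0 : w.v 0 = .inl (a + a) := by rw [← huw.1 0 h0 (by omega)]; exact hA
    have hS : SuccS w 0 x := hsucc
    unfold SuccS at hS
    rw [hw0] at hS
    refine h w hw ?_
    rw [hS]
    simp only [Bool.false_eq_true, if_false]
    congr 1
    omega
  · simp only [dig, if_true]
    intro u hu htu hadd w hw huw hsucc z hz hwz hsucc2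
    have hux : u.v x = .inl a := by rw [← htu.1 x hxm (by omega)]; exact hta
    have hA : AddS u x x 0 := hadd
    unfold AddS at hA
    rw [hux] at hA
    have hw0 : w.v 0 = .inl (a + a) := by rw [← huw.1 0 h0 (by omega)]; exact hA
    have hS : SuccS w 0 1 := hsucc
    unfold SuccS at hS
    rw [hw0] at hS
    have hz1 : z.v 1 = .inl (a + a + 1) := by rw [← hwz.1 1 h1 (by omega)]; exact hS
    have hS2 : SuccS z 1 x := hsucc2
    unfold SuccS at hS2
    rw [hz1] at hS2
    refine h z hz ?_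
    rw [hS2]
    simp only [if_true]
    congr 1
    omega

theorem tq_digs {m x : ℕ} (h0 : 0 < m) (h1 : 1 < m) (hxm : x < m) (hx : 2 ≤ x) {φ : Fml} :
    ∀ (σ : List Bool) (a : ℕ),
    (∀ t, Ok m t → t.v x = .inl (num (digits a ++ σ)) → Tq m φ t) →
    ∀ t, Ok m t → t.v x = .inl a → Tq m (σ.foldr (dig x) φ) t
  | [], a, h => by
    intro t ht hta
    refine h t ht ?_
    rw [hta, List.append_nil, num_digits]
  | b :: σ, a, h => by
    rw [List.foldr_cons]
    refine tq_dig h0 h1 hxm hx b a (tq_digs h0 h1 hxm hx σ _ ?_)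
    intro t ht hta
    refine h t ht ?_
    rw [hta, num_cons_aux]

theorem tq_dnum {m x n : ℕ} (h0 : 0 < m) (h1 : 1 < m) (hxm : x < m) (hx : 2 ≤ x) {φ : Fml}
    (h : ∀ t, Ok m t → t.v x = .inl n → Tq m φ t) : Tq1 m (dnum x n φ) := by
  intro s hs t ht hst hz
  have hz' : t.v x = .inl 0 := hz
  refine tq_digs h0 h1 hxm hx (digits n) 0 ?_ t ht hz'
  intro u hu hux
  refine h u hu ?_
  rw [hux, digits_zero, List.nil_append, num_digits]

/-! ### variables of dyadic instances -/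

theorem vlt_dig {m x : ℕ} {b : Bool} {φ : Fml} (h : Vlt m (dig x b φ)) : Vlt m φ := by
  cases b
  · simp only [dig, Bool.false_eq_true, if_false] at h
    exact h.2.2.2.2
  · simp only [dig, if_true] at h
    exact h.2.2.2.2.2.2

theorem vlt_digs {m x : ℕ} {φ : Fml} : ∀ {σ : List Bool}, Vlt m (σ.foldr (dig x) φ) → Vlt m φ
  | [], h => h
  | _ :: _, h => vlt_digs (vlt_dig h)

theorem vlt_dnum {m x n : ℕ} {φ : Fml} (h : Vlt m (dnum x n φ)) : x < m ∧ Vlt m φ :=
  ⟨h.1, vlt_digs h.2.2⟩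

theorem lw_dig {x : ℕ} {b : Bool} {φ : Fml} (h : Lw φ) : Lw (dig x b φ) := by
  cases b
  · simp only [dig, Bool.false_eq_true, if_false]
    exact ⟨trivial, trivial, h⟩
  · simp only [dig, if_true]
    exact ⟨trivial, trivial, trivial, h⟩

theorem lw_digs {x : ℕ} {φ : Fml} (h : Lw φ) : ∀ σ : List Bool, Lw (σ.foldr (dig x) φ)
  | [] => h
  | _ :: σ => lw_dig (lw_digs h σ)

theorem lw_dnum {x n : ℕ} {φ : Fml} (h : Lw φ) : Lw (dnum x n φ) := ⟨trivial, lw_digs h _⟩

/-! ### formulas without the symbols `op 6`, `op 7`, ... -/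

/-- the formula does not contain the symbols `op i`, `i ≥ 6` -/
def Lo : Fml → Prop
  | .op i _ _ _ _ => i < 6
  | .imp φ ψ => Lo φ ∧ Lo ψ
  | .all _ φ => Lo φ
  | _ => True

theorem opQ_opP {s : St} {i a b c : ℕ} (h : i < 6) : OpQ s i a b c ↔ OpP s i a b c := by
  rcases i with _ | _ | _ | _ | _ | _ | i
  · exact Iff.rfl
  · exact Iff.rfl
  · exact Iff.rfl
  · exact Iff.rfl
  · exact Iff.rfl
  · exact Iff.rfl
  · omega

theorem tq_tru {m : ℕ} : ∀ {φ : Fml}, Lo φ → ∀ s, Tq m φ s ↔ Tru m φ s := by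
  intro φ
  induction φ with
  | bot => intro _ s; exact Iff.rfl
  | eq x y => intro _ s; exact Iff.rfl
  | zero x => intro _ s; exact Iff.rfl
  | succ x y => intro _ s; exact Iff.rfl
  | add x y z => intro _ s; exact Iff.rfl
  | mul x y z => intro _ s; exact Iff.rfl
  | op i a b c d => intro h s; exact opQ_opP h
  | imp φ ψ ih ih' =>
    intro h s
    show (Tq m φ s → Tq m ψ s) ↔ (Tru m φ s → Tru m ψ s)
    rw [ih h.1 s, ih' h.2 s]
  | all x φ ih =>
    intro h s
    show (∀ t, Ok m t → Agr m x s t → Tq m φ t) ↔ (∀ t, Ok m t → Agr m x s t → Tru m φ t)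
    constructor
    · intro h' t ht hst; exact (ih h t).1 (h' t ht hst)
    · intro h' t ht hst; exact (ih h t).2 (h' t ht hst)

theorem lo_arith : ∀ {φ : Fml}, Arith φ → Lo φ := by
  intro φ
  induction φ with
  | bot => intro _; trivial
  | eq x y => intro _; trivial
  | zero x => intro _; trivial
  | succ x y => intro _; trivial
  | add x y z => intro _; trivial
  | mul x y z => intro _; trivial
  | op i a b c d => intro h; exact h.elim
  | imp φ ψ ih ih' => intro h; exact ⟨ih h.1, ih' h.2⟩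
  | all x φ ih => intro h; exact ih h

theorem lo_dig {x : ℕ} {b : Bool} {φ : Fml} (h : Lo φ) : Lo (dig x b φ) := by
  cases b
  · simp only [dig, Bool.false_eq_true, if_false]
    exact ⟨trivial, trivial, h⟩
  · simp only [dig, if_true]
    exact ⟨trivial, trivial, trivial, h⟩

theorem lo_digs {x : ℕ} {φ : Fml} (h : Lo φ) : ∀ σ : List Bool, Lo (σ.foldr (dig x) φ)
  | [] => h
  | _ :: σ => lo_dig (lo_digs h σ)

theorem lo_dnum {x n : ℕ} {φ : Fml} (h : Lo φ) : Lo (dnum x n φ) := ⟨trivial, lo_digs h _⟩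

/-! ### three dyadic instances in `D` -/

theorem sat_three {F : Fml} (hF : ∀ x, F.Free x → x = 2 ∨ x = 3 ∨ x = 4) {c y d k : ℕ}
    (hk : Proves robinson k (dnum 2 c (dnum 3 y (dnum 4 d F)))) (v : ℕ → DM) :
    Fm.Sat D F (upd (upd (upd v 2 (.inl c)) 3 (.inl y)) 4 (.inl d)) := by
  have hs := sat_proves (S := D) sat_robinson hk v
  obtain ⟨q⟩ := exists_Q (S := D) v (fun ψ hψ => sat_robinson ψ hψ v)
  have a0 : ¬ F.Free 0 := fun h => by have := hF 0 h; omega
  have a1 : ¬ F.Free 1 := fun h => by have := hF 1 h; omega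
  have b0 : ¬ (dnum 4 d F).Free 0 := fun h => a0 (free_dnum h).2
  have b1 : ¬ (dnum 4 d F).Free 1 := fun h => a1 (free_dnum h).2
  have c0 : ¬ (dnum 3 y (dnum 4 d F)).Free 0 := fun h => b0 (free_dnum h).2
  have c1 : ¬ (dnum 3 y (dnum 4 d F)).Free 1 := fun h => b1 (free_dnum h).2
  rw [sat_dnum q (by omega) c0 c1, sat_dnum q (by omega) b0 b1, sat_dnum q (by omega) a0 a1,
    nm_D q, nm_D q, nm_D q] at hs
  exact hs

theorem sat_Xi {P : Fml} (hP : Num P) {c y : ℕ} (h : ¬ PrRel c y (code [Fm.bot])) {v : ℕ → DM}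
    (h2 : v 2 = .inl c) (h3 : v 3 = .inl y) : Fm.Sat D (Xi P) v := by
  obtain ⟨k, hk⟩ := hP.neg c y (code [Fm.bot]) h
  obtain ⟨q⟩ := exists_Q (S := D) v (fun ψ hψ => sat_robinson ψ hψ v)
  have hF : ∀ x, (P.neg).Free x → x = 2 ∨ x = 3 ∨ x = 4 := fun x hx => by
    simp only [Fm.neg, Fm.Free, or_false] at hx
    exact hP.free x hx
  have a0 : ¬ (P.neg).Free 0 := fun h => by have := hF 0 h; omega
  have a1 : ¬ (P.neg).Free 1 := fun h => by have := hF 1 h; omega
  have hs := sat_three hF hk v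
  unfold Xi
  rw [sat_dnum q (by omega) a0 a1, nm_D q]
  have e : upd (upd v 2 (.inl c)) 3 (.inl y) = v := by
    rw [← h2, upd_self, ← h3, upd_self]
  rw [e] at hs
  exact hs

/-- the value of `v₃₁` is determined -/
theorem val_GG {P G : Fml} (hG : NumG P G) {z T : ℕ} {v : ℕ → DM} (h29 : v 29 = .inl z)
    (h31 : v 31 = .inl T) (h : Fm.Sat D (GG G) v) : T = num (tau P z) := by
  by_contra hne
  obtain ⟨k, hk⟩ := hG.neg z T T hne
  have hF : ∀ x, (G.neg).Free x → x = 2 ∨ x = 3 ∨ x = 4 := fun x hx => by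
    simp only [Fm.neg, Fm.Free, or_false] at hx
    exact hG.free x hx
  have hs := sat_three hF hk v
  apply hs
  have h1 := h (.inl z) (by
    show upd v 2 (.inl z) 2 = upd v 2 (.inl z) 29
    rw [upd_same, upd_ne _ _ (by decide), h29]) (.inl T) (by
    show upd (upd v 2 (.inl z)) 3 (.inl T) 3 = upd (upd v 2 (.inl z)) 3 (.inl T) 31
    rw [upd_same, upd_ne _ _ (by decide), upd_ne _ _ (by decide), h31]) (.inl T) (by
    show upd (upd (upd v 2 (.inl z)) 3 (.inl T)) 4 (.inl T) 4 =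
      upd (upd (upd v 2 (.inl z)) 3 (.inl T)) 4 (.inl T) 31
    rw [upd_same, upd_ne _ _ (by decide), upd_ne _ _ (by decide), upd_ne _ _ (by decide), h31])
  exact h1

/-! ### the module -/

attribute [local irreducible] zn code tau in
theorem rgQ (h : TransferT) (h2 : ExRealzT) : RgQT := by
  intro P G hP hG m hm hv
  have hv1 : 29 < m ∧ Vlt m (rg P G) := vlt_dnum (m := m) (x := 29) (n := zn P G) (φ := rg P G) hv
  obtain ⟨h29, hvf⟩ := hv1
  have h31 : 31 < m := hvf.1
  have h0m : 0 < m := by omega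
  have h1m : 1 < m := by omega
  have h2m : 2 < m := by omega
  have h3m : 3 < m := by omega
  have h15m : 15 < m := by omega
  have h17m : 17 < m := by omega
  have hvG : Vlt m (GG G) := hvf.2.1
  have hX : Vlt m (.imp XX (Xi P)) := hvf.2.2.2.2.2.2.2.2
  have h33 : 33 < m := hX.1.1.1
  have h35 : 35 < m := hX.1.1.2.1
  have h37 : 37 < m := hX.1.1.2.2.1
  unfold rgs
  refine tq_dnum h0m h1m h29 (by omega) ?_
  intro t ht ht29 u hu htu hGG s1 hs1 hus1 s2 hs2 hs12 s3 hs3 hs23 hE s4 hs4 hs34 hK hXX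
  have hu29 : u.v 29 = .inl (zn P G) := by
    rw [← htu.1 29 h29 (by decide)]; exact ht29
  obtain ⟨k, x, w, hk, hx, hw, hE1, hE2⟩ : ∃ p q r, s3.v 15 = .inl p ∧ s3.v 3 = .inl q ∧
      s3.v 17 = .inl r ∧ Erl p q r := hE
  obtain ⟨w', T, y, hw', hT, hy, hK1⟩ : ∃ p q r, s4.v 17 = .inl p ∧ s4.v 31 = .inl q ∧
      s4.v 2 = .inl r ∧ Krl p q r := hK
  have hww : w' = w := by
    have e := hs34.1 17 h17m (by decide)
    rw [hw, hw'] at e
    exact (Sum.inl.inj e).symm
  subst hww
  have hx4 : s4.v 3 = .inl x := by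
    rw [← hs34.1 3 h3m (by decide)]; exact hx
  have hu31 : u.v 31 = .inl T := by
    rw [hus1.1 31 h31 (by decide), hs12.1 31 h31 (by decide), hs23.1 31 h31 (by decide),
      hs34.1 31 h31 (by decide)]
    exact hT
  -- the value of `31`
  have hTv : T = num (tau P (zn P G)) := by
    obtain ⟨v, hvr⟩ := h2 m u hu
    have hlw : Lw (GG G) := ⟨trivial, trivial, trivial, lw_arith hG.arith⟩
    have hlo : Lo (GG G) := ⟨trivial, trivial, trivial, lo_arith hG.arith⟩
    have hsat : Fm.Sat D (GG G) v := (h m _ hvG hlw u v hu hvr).1 ((tq_tru hlo u).1 hGG)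
    exact val_GG hG ((hvr.num 29 h29 _).1 hu29) ((hvr.num 31 h31 _).1 hu31) hsat
  -- the value of `2`
  have hy2 : y = code (conAtD P (AA P G) (2 ^ (k + 1)) :: AA P G) := by
    rw [code_ext]
    unfold Krl at hK1
    rw [hK1, hE1, hTv, digits_num, digits_num]
  -- the value of `3`
  have hxm : x < m := by
    by_contra hcon
    refine hXX ?_
    intro a _ hwa b _ hab c hc hbc hcol
    have hc3 : c.v 3 = s4.v 3 := by
      rw [← hbc.1 3 h3m (by decide), ← hab.1 3 h3m (by decide), ← hwa.1 3 h3m (by decide)]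
    obtain ⟨δ, e1, e2⟩ : ∃ δ, c.v 37 = .inl δ ∧ c.c 33 35 = δ + 1 := hcol
    refine ⟨δ, e1, fun y' hy' => ?_⟩
    rw [hc3, hx4] at hy'
    have e3 := Sum.inl.inj hy'
    have := hc.le 33 h33 35 h35
    omega
  have hnp : ¬ PrRel y x (code [Fm.bot]) := by
    rintro ⟨Γ, φ, e1, e2, e3⟩
    rw [hy2] at e1
    have e1' := code_inj e1
    have e2' := code_inj e2
    have e2'' : Fm.bot = φ := by simpa using e2'
    rw [← e1', ← e2''] at e3
    exact hm x hxm k hE2 e3
  obtain ⟨v, hvr⟩ := h2 m s4 hs4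
  have hlw : Lw (Xi P) := lw_dnum ⟨lw_arith hP.arith, trivial⟩
  have hlo : Lo (Xi P) := lo_dnum ⟨lo_arith hP.arith, trivial⟩
  rw [tq_tru hlo s4, h m _ hX.2 hlw s4 v hs4 hvr]
  exact sat_Xi hP hnp ((hvr.num 2 h2m _).1 hy) ((hvr.num 3 h3m _).1 hx4)

/-- MODULE 2. -/
theorem rgQT : RgQT :=
  rgQ (Pool.Agent.J6H49.BC.transfer Pool.Agent.J6H81.BC.ext) Pool.Agent.J6H49.BC.exRealz

end Pool.Agent.J6H83.MC
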